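import Mathlib
import Pool.Agent.NPC.Sat
import Pool.Agent.H586R2.Sac.PolyRed

set_option autoImplicit false

/-!
# The shortest alternating cycle problem is NP-hard

The problem SAC is NP-hard, already for bipartite graphs that have a perfect matching.
-/

namespace Pool.Agent.Results.MP_cb63a5_lc.ShortestAlternatingCycleNPHard

open Pool.Agent.NPC Pool.Agent.H586R2.Sac

/-- SAC is NP-hard. Let `C` be any class of instances that contains all instances whose graph is
bipartite and has a perfect matching (for instance the class of all instances, or the class of these
instances only). Then SAC restricted to the instances in `C` is NP-hard: given an instance in `C`,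
it is NP-hard to decide whether there are a maximum matching `M` and a cycle of length at most `L`
every second edge of which lies in `M`. -/
theorem result (C : Inst → Prop)
    (hC : ∀ I : Inst, I.graph.IsBipartite → HasPerfectMatching I.graph → C I) :
    NPHardP (fun I : Inst => I.Valid ∧ C I ∧ HasShortAltCycle I.graph I.2) :=
  (hardI_SAT3.trans red_poly (fun φ => (red_correct φ).trans
    ⟨fun h => ⟨red_valid φ, hC _ (red_bipartite φ) (red_perfect φ), h⟩, fun h => h.2.2⟩)).toNPHardP

end Pool.Agent.Results.MP_cb63a5_lc.ShortestAlternatingCycleNPHard
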